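import Pool.Agent.L7h54.GR.Stm

/-!
# Project GR: counting the elements of cost at most `n`
-/

set_option autoImplicit false

namespace Pool.Agent.L7h53.GR

open Finset
open scoped symmDiff
open Pool.Agent.L7h54.GR

section one

variable {x : ℝ}

/-- the sum over the lamps at distance `j` -/
theorem lamps (hx : 0 ≤ x) (hx1 : x ≤ 1) (j : ℕ) (c : Finset ℤ) (m : ℤ) (i l : ℕ) :
    ∑ T ∈ (Icc (min 0 m - i) (max 0 m + l + j)).powerset,
      x ^ (uns j c T (min 0 m - i) (max 0 m + l) m).card ≤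
    2 ^ (i + l + 2 * j + 1) * ∏ y ∈ Ico (min 0 m + j) (max 0 m), bd x c j y := by
  classical
  set a := min 0 m - i with ha
  set b := max 0 m + l with hb
  set p : ℤ → Prop := fun y => ¬ svU c a b m y ∧ ¬ svL c a b m (y - j) with hp
  have h1 : ∑ T ∈ (Icc a (b + j)).powerset, x ^ (uns j c T a b m).card =
      ∏ y ∈ Icc a (b + j), (1 + (if p y then x else 1)) := by
    rw [Finset.prod_one_add]
    refine sum_congr rfl fun T _ => ?_
    rw [prod_ite, prod_const, prod_const_one, mul_one]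
    congr 2
  have hsub : Ico (min 0 m + (j : ℤ)) (max 0 m) ⊆ Icc a (b + j) := by
    intro y hy
    rw [mem_Ico] at hy
    rw [mem_Icc]
    omega
  rw [h1, ← prod_sdiff hsub]
  refine mul_le_mul ?_ ?_ (prod_nonneg fun y _ => ?_) (by positivity)
  · have h2 : ∏ y ∈ Icc a (b + j) \ Ico (min 0 m + (j : ℤ)) (max 0 m), (1 + (if p y then x else 1)) ≤
        ∏ y ∈ Icc a (b + j) \ Ico (min 0 m + (j : ℤ)) (max 0 m), (2 : ℝ) := by
      refine prod_le_prod (fun y _ => ?_) fun y _ => ?_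
      · split_ifs <;> linarith
      · split_ifs <;> linarith
    refine h2.trans ?_
    rw [prod_const]
    refine pow_le_pow_right₀ (by norm_num) ?_
    rw [card_sdiff_of_subset hsub, Int.card_Icc, Int.card_Ico]
    omega
  · refine le_of_eq (prod_congr rfl fun y hy => ?_)
    rw [mem_Ico] at hy
    have h3 : p y ↔ y - j ∈ c ∧ y ∉ c := by
      have e1 : svU c a b m y ↔ y ∈ c := by
        unfold svU ins
        constructor
        · rintro ⟨_, _, h | h⟩
          · exact absurd ⟨by omega, by omega⟩ h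
          · exact h
        · intro h
          exact ⟨by omega, by omega, Or.inr h⟩
      have e2 : svL c a b m (y - j) ↔ y - j ∉ c := by
        unfold svL ins
        constructor
        · rintro ⟨_, _, h | h⟩
          · exact absurd ⟨by omega, by omega⟩ h
          · exact h
        · intro h
          exact ⟨by omega, by omega, Or.inr h⟩
      show ¬ svU c a b m y ∧ ¬ svL c a b m (y - j) ↔ _
      rw [e1, e2, not_not]
      exact and_comm
    unfold bd
    simp only [h3]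
    split_ifs
    · rfl
    · norm_num
  · split_ifs <;> linarith

theorem bd_nonneg (hx : 0 ≤ x) (s : Finset ℤ) (j y : ℤ) : 0 ≤ bd x s j y := by
  unfold bd
  split_ifs <;> linarith

theorem wt_nonneg (hx : 0 ≤ x) (k : ℕ) (a b : ℤ) (s : Finset ℤ) : 0 ≤ wt k a b x s :=
  mul_nonneg (prod_nonneg fun _ _ => bd_nonneg hx _ _ _) (prod_nonneg fun _ _ => bd_nonneg hx _ _ _)

theorem wt_inter (k : ℕ) (hk : 1 ≤ k) (L U : ℤ) (c : Finset ℤ) :
    wt k L U x (c ∩ Ico L U) = wt k L U x c := by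
  unfold wt bd
  congr 1
  · refine prod_congr rfl fun y hy => ?_
    rw [mem_Ico] at hy
    have h1 : y - 1 ∈ c ∩ Ico L U ↔ y - 1 ∈ c := by
      rw [mem_inter, mem_Ico]
      exact ⟨fun h => h.1, fun h => ⟨h, by omega, by omega⟩⟩
    have h2 : y ∈ c ∩ Ico L U ↔ y ∈ c := by
      rw [mem_inter, mem_Ico]
      exact ⟨fun h => h.1, fun h => ⟨h, by omega, by omega⟩⟩
    simp only [h1, h2]
  · refine prod_congr rfl fun y hy => ?_
    rw [mem_Ico] at hy
    have h1 : y - k ∈ c ∩ Ico L U ↔ y - k ∈ c := by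
      rw [mem_inter, mem_Ico]
      exact ⟨fun h => h.1, fun h => ⟨h, by omega, by omega⟩⟩
    have h2 : y ∈ c ∩ Ico L U ↔ y ∈ c := by
      rw [mem_inter, mem_Ico]
      exact ⟨fun h => h.1, fun h => ⟨h, by omega, by omega⟩⟩
    simp only [h1, h2]

/-- the sum over the set `c` -/
theorem csum (hx : 0 ≤ x) (k : ℕ) (hk : 1 ≤ k) (m : ℤ) (i l : ℕ) :
    ∑ c ∈ (Ico (min 0 m - i) (max 0 m + l)).powerset, wt k (min 0 m) (max 0 m) x c ≤
    2 ^ (i + l) * ∑ s ∈ (Ico (min 0 m) (max 0 m)).powerset, wt k (min 0 m) (max 0 m) x s := by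
  classical
  set L := min 0 m with hL
  set U := max 0 m with hU
  have h1 : ∀ c ∈ (Ico (L - i) (U + l)).powerset, c ∩ Ico L U ∈ (Ico L U).powerset := fun c _ =>
    mem_powerset.2 inter_subset_right
  rw [← sum_fiberwise_of_maps_to h1, mul_sum]
  refine sum_le_sum fun s _ => ?_
  have h2 : ∑ c ∈ (Ico (L - i) (U + l)).powerset with c ∩ Ico L U = s, wt k L U x c =
      (((Ico (L - i) (U + l)).powerset.filter fun c => c ∩ Ico L U = s).card : ℝ) * wt k L U x s := by
    rw [← nsmul_eq_mul, ← sum_const]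
    refine sum_congr rfl fun c hc => ?_
    rw [← wt_inter k hk, (mem_filter.1 hc).2]
  rw [h2]
  refine mul_le_mul_of_nonneg_right ?_ (wt_nonneg hx _ _ _ _)
  have h3 : ((Ico (L - i) (U + l)).powerset.filter fun c => c ∩ Ico L U = s).card ≤
      (Ico (L - (i : ℤ)) (U + l) \ Ico L U).powerset.card := by
    refine card_le_card_of_injOn (fun c => c \ Ico L U) ?_ ?_
    · intro c hc
      have h4 := (mem_filter.1 (mem_coe.1 hc)).1
      rw [mem_powerset] at h4
      exact mem_coe.2 (mem_powerset.2 (sdiff_subset_sdiff h4 subset_rfl))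
    · intro c hc c' hc' h4
      have h5 := (mem_filter.1 (mem_coe.1 hc)).2
      have h6 := (mem_filter.1 (mem_coe.1 hc')).2
      dsimp only at h4
      rw [← sdiff_union_inter c (Ico L U), ← sdiff_union_inter c' (Ico L U), h4, h5, h6]
  have h4 : (Ico (L - (i : ℤ)) (U + l) \ Ico L U).card = i + l := by
    have hsub : Ico L U ⊆ Ico (L - (i : ℤ)) (U + l) := by
      intro y hy
      rw [mem_Ico] at hy ⊢
      omega
    rw [card_sdiff_of_subset hsub, Int.card_Ico, Int.card_Ico]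
    omega
  rw [card_powerset, h4] at h3
  exact_mod_cast h3

/-- translation -/
theorem trans (k : ℕ) (m : ℤ) :
    ∑ s ∈ (Ico (min 0 m) (max 0 m)).powerset, wt k (min 0 m) (max 0 m) x s = P k m.natAbs x := by
  classical
  set L := min 0 m with hL
  set U := max 0 m with hU
  have hM : ((m.natAbs : ℕ) : ℤ) = U - L := by omega
  unfold P
  rw [hM]
  have hmem : ∀ (s : Finset ℤ) (y : ℤ), y ∈ sh (-L) s ↔ y + L ∈ s := by
    intro s y
    rw [mem_sh, sub_neg_eq_add]
  refine sum_nbij' (fun s => sh (-L) s) (fun s => sh L s) ?_ ?_ ?_ ?_ ?_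
  · intro s hs
    rw [mem_powerset] at hs ⊢
    intro y hy
    have h1 := hs ((hmem s y).1 hy)
    rw [mem_Ico] at h1 ⊢
    omega
  · intro s hs
    rw [mem_powerset] at hs ⊢
    intro y hy
    have h1 := hs (mem_sh.1 hy)
    rw [mem_Ico] at h1 ⊢
    omega
  · intro s _
    rw [sh_sh, add_neg_cancel, sh_zero]
  · intro s _
    rw [sh_sh, neg_add_cancel, sh_zero]
  · intro s _
    unfold wt bd
    congr 1
    · refine prod_nbij' (fun y => y - L) (fun y => y + L) ?_ ?_ ?_ ?_ ?_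
      · intro y hy
        rw [mem_Ico] at hy ⊢
        omega
      · intro y hy
        rw [mem_Ico] at hy ⊢
        omega
      · intro y _
        ring
      · intro y _
        ring
      · intro y _
        have e1 : (y - 1 ∈ s ∧ y ∉ s) ↔ (y - L - 1 ∈ sh (-L) s ∧ y - L ∉ sh (-L) s) := by
          rw [hmem, hmem, show y - L - 1 + L = y - 1 by ring, show y - L + L = y by ring]
        simp only [e1]
    · refine prod_nbij' (fun y => y - L) (fun y => y + L) ?_ ?_ ?_ ?_ ?_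
      · intro y hy
        rw [mem_Ico] at hy ⊢
        omega
      · intro y hy
        rw [mem_Ico] at hy ⊢
        omega
      · intro y _
        ring
      · intro y _
        ring
      · intro y _
        have e1 : (y - k ∈ s ∧ y ∉ s) ↔ (y - L - k ∈ sh (-L) s ∧ y - L ∉ sh (-L) s) := by
          rw [hmem, hmem, show y - L - k + L = y - k by ring, show y - L + L = y by ring]
        simp only [e1]

end one

/-- the box -/
noncomputable def box (k : ℕ) (m : ℤ) (i l : ℕ) : Finset (Finset ℤ × Finset ℤ × Finset ℤ) :=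
  (Ico (min 0 m - i) (max 0 m + l)).powerset ×ˢ
    ((Icc (min 0 m - i) (max 0 m + l + k)).powerset ×ˢ
      (Icc (min 0 m - i) (max 0 m + l + (1 : ℕ))).powerset)

/-- the cost -/
noncomputable def cost (k : ℕ) (m : ℤ) (i l : ℕ) (p : Finset ℤ × Finset ℤ × Finset ℤ) : ℕ :=
  m.natAbs + 2 * (i + l) + (uns k p.1 p.2.1 (min 0 m - i) (max 0 m + l) m).card +
    (uns (1 : ℕ) p.1 p.2.2 (min 0 m - i) (max 0 m + l) m).card

theorem box_sum {k : ℕ} {x θ : ℝ} (hk : 1 ≤ k) (hx : 0 < x) (hx1 : x ≤ 1)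
    (hP : ∀ N : ℕ, x ^ N * P k N x ≤ θ ^ N) (m : ℤ) (i l : ℕ) :
    ∑ p ∈ box k m i l, x ^ cost k m i l p ≤
      2 ^ (2 * k + 4) * ((8 * x ^ 2) ^ i * (8 * x ^ 2) ^ l * θ ^ m.natAbs) := by
  have h1 : ∑ p ∈ box k m i l, x ^ cost k m i l p =
      x ^ (m.natAbs + 2 * (i + l)) * ∑ c ∈ (Ico (min 0 m - (i : ℤ)) (max 0 m + l)).powerset,
        (∑ H ∈ (Icc (min 0 m - (i : ℤ)) (max 0 m + l + k)).powerset,
          x ^ (uns k c H (min 0 m - i) (max 0 m + l) m).card) *
        ∑ Q ∈ (Icc (min 0 m - (i : ℤ)) (max 0 m + l + (1 : ℕ))).powerset,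
          x ^ (uns (1 : ℕ) c Q (min 0 m - i) (max 0 m + l) m).card := by
    rw [box, sum_product, mul_sum]
    refine sum_congr rfl fun c _ => ?_
    rw [sum_mul_sum, sum_product, mul_sum]
    refine sum_congr rfl fun H _ => ?_
    rw [mul_sum]
    refine sum_congr rfl fun Q _ => ?_
    rw [cost, pow_add, pow_add]
    ring
  rw [h1]
  have h2 : ∀ c ∈ (Ico (min 0 m - (i : ℤ)) (max 0 m + l)).powerset,
      (∑ H ∈ (Icc (min 0 m - (i : ℤ)) (max 0 m + l + k)).powerset,
          x ^ (uns k c H (min 0 m - i) (max 0 m + l) m).card) *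
        ∑ Q ∈ (Icc (min 0 m - (i : ℤ)) (max 0 m + l + (1 : ℕ))).powerset,
          x ^ (uns (1 : ℕ) c Q (min 0 m - i) (max 0 m + l) m).card ≤
      2 ^ (2 * (i + l) + 2 * k + 4) * wt k (min 0 m) (max 0 m) x c := by
    intro c _
    have h3 := lamps hx.le hx1 k c m i l
    have h4 := lamps hx.le hx1 1 c m i l
    have h5 : ∀ T : Finset ℤ, 0 ≤ x ^ (uns (1 : ℕ) c T (min 0 m - i) (max 0 m + l) m).card :=
      fun T => (pow_pos hx _).le
    have h6 : 0 ≤ ∏ y ∈ Ico (min 0 m + (k : ℤ)) (max 0 m), bd x c k y :=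
      prod_nonneg fun _ _ => bd_nonneg hx.le _ _ _
    refine (mul_le_mul h3 h4 (sum_nonneg fun T _ => h5 T) (by positivity)).trans (le_of_eq ?_)
    unfold wt
    push_cast
    have e1 : (2 : ℝ) ^ (2 * (i + l) + 2 * k + 4) = 2 ^ (i + l + 2 * k + 1) * 2 ^ (i + l + 2 * 1 + 1) := by
      rw [← pow_add]
      congr 1
      ring
    rw [e1]
    ring
  have h3 := sum_le_sum h2
  rw [← mul_sum] at h3
  have h4 := csum hx.le k hk m i l
  rw [trans] at h4
  have h5 : (0 : ℝ) ≤ 2 ^ (2 * (i + l) + 2 * k + 4) := by positivity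
  have h6 := h3.trans (mul_le_mul_of_nonneg_left h4 h5)
  have h7 : (0 : ℝ) ≤ x ^ (m.natAbs + 2 * (i + l)) := by positivity
  refine (mul_le_mul_of_nonneg_left h6 h7).trans ?_
  have h8 := hP m.natAbs
  have h9 : x ^ (m.natAbs + 2 * (i + l)) * (2 ^ (2 * (i + l) + 2 * k + 4) *
      (2 ^ (i + l) * P k m.natAbs x)) =
      2 ^ (2 * k + 4) * ((8 * x ^ 2) ^ i * (8 * x ^ 2) ^ l * (x ^ m.natAbs * P k m.natAbs x)) := by
    have e8 : (8 : ℝ) = 2 ^ 3 := by norm_num
    rw [e8, mul_pow, mul_pow, ← pow_mul, ← pow_mul, ← pow_mul, ← pow_mul]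
    ring
  rw [h9]
  gcongr

theorem sumZ {θ : ℝ} (h0 : 0 < θ) (h1 : θ < 1) : Summable fun m : ℤ => θ ^ m.natAbs := by
  have h2 : Summable fun n : ℕ => θ ^ n := summable_geometric_of_lt_one h0.le h1
  refine Summable.of_nat_of_neg ?_ ?_
  · simpa using h2
  · simpa using h2

theorem s_CNT : S_CNT := by
  classical
  intro k x θ hk hx h8 hθ hθ1 hP
  set β : ℝ := 8 * x ^ 2 with hβ
  have hβ0 : 0 ≤ β := by positivity
  have hx1 : x ≤ 1 := by
    by_contra h
    push Not at h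
    nlinarith
  have hsβ : Summable fun n : ℕ => β ^ n := summable_geometric_of_lt_one hβ0 h8
  have hsθ := sumZ hθ hθ1
  refine ⟨2 ^ (2 * k + 4) * ((∑' n : ℕ, β ^ n) * (∑' n : ℕ, β ^ n) * ∑' m : ℤ, θ ^ m.natAbs), ?_⟩
  intro n F hF
  -- the conditions
  set cond : LL → ℕ → ℕ → Prop := fun g i l =>
    (g.c, g.h, g.q) ∈ box k g.m i l ∧ cost k g.m i l (g.c, g.h, g.q) ≤ n with hcond
  have hex : ∀ g ∈ F, ∃ i ∈ range (n + 1), ∃ l ∈ range (n + 1), cond g i l := by
    intro g hg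
    obtain ⟨a, b, h1, h2, h3, h4, h5, h6, h7, h8⟩ := hF g hg
    have e1 : min 0 g.m - (((min 0 g.m - a).toNat : ℕ) : ℤ) = a := by omega
    have e2 : max 0 g.m + (((b - max 0 g.m).toNat : ℕ) : ℤ) = b := by omega
    have h9 : cond g (min 0 g.m - a).toNat (b - max 0 g.m).toNat := by
      constructor
      · rw [box, mem_product, mem_product, mem_powerset, mem_powerset, mem_powerset, e1, e2]
        exact ⟨h5, h6, by exact_mod_cast h7⟩
      · rw [cost, e1, e2]
        push_cast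
        rw [Int.abs_eq_natAbs] at h8
        omega
    have h10 := h9.2
    rw [cost] at h10
    exact ⟨_, mem_range.2 (by omega), _, mem_range.2 (by omega), h9⟩
  have hm : ∀ g ∈ F, g.m ∈ Icc (-(n : ℤ)) n := by
    intro g hg
    obtain ⟨i, _, l, _, _, h2⟩ := hex g hg
    rw [cost] at h2
    rw [mem_Icc]
    omega
  have h1 : (F.card : ℝ) * x ^ n ≤ ∑ g ∈ F, ∑ i ∈ range (n + 1), ∑ l ∈ range (n + 1),
      (if cond g i l then x ^ cost k g.m i l (g.c, g.h, g.q) else 0) := by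
    rw [← nsmul_eq_mul, ← sum_const]
    refine sum_le_sum fun g hg => ?_
    obtain ⟨i, hi, l, hl, hc⟩ := hex g hg
    have hnn : ∀ i l, 0 ≤ (if cond g i l then x ^ cost k g.m i l (g.c, g.h, g.q) else 0) := by
      intro i l
      split_ifs
      · exact (pow_pos hx _).le
      · exact le_rfl
    calc x ^ n ≤ (if cond g i l then x ^ cost k g.m i l (g.c, g.h, g.q) else 0) := by
          rw [if_pos hc]
          exact pow_le_pow_of_le_one hx.le hx1 hc.2
      _ ≤ ∑ l ∈ range (n + 1), (if cond g i l then x ^ cost k g.m i l (g.c, g.h, g.q) else 0) :=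
          single_le_sum (f := fun l => if cond g i l then x ^ cost k g.m i l (g.c, g.h, g.q) else 0)
            (fun l _ => hnn i l) hl
      _ ≤ _ := single_le_sum (f := fun i => ∑ l ∈ range (n + 1),
            (if cond g i l then x ^ cost k g.m i l (g.c, g.h, g.q) else 0))
            (fun i _ => sum_nonneg fun l _ => hnn i l) hi
  have h2 : ∀ i l, ∑ g ∈ F, (if cond g i l then x ^ cost k g.m i l (g.c, g.h, g.q) else 0) ≤
      ∑ m ∈ Icc (-(n : ℤ)) n, 2 ^ (2 * k + 4) * (β ^ i * β ^ l * θ ^ m.natAbs) := by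
    intro i l
    rw [← sum_fiberwise_of_maps_to hm]
    refine sum_le_sum fun m _ => ?_
    refine le_trans ?_ (box_sum hk hx hx1 hP m i l)
    rw [← sum_filter]
    have h3 : ∑ g ∈ (F.filter fun g => g.m = m).filter (fun g => cond g i l),
        x ^ cost k g.m i l (g.c, g.h, g.q) =
        ∑ p ∈ ((F.filter fun g => g.m = m).filter (fun g => cond g i l)).image
          (fun g => (g.c, g.h, g.q)), x ^ cost k m i l p := by
      rw [sum_image]
      · refine sum_congr rfl fun g hg => ?_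
        rw [(mem_filter.1 (mem_filter.1 hg).1).2]
      · intro g hg g' hg' h4
        have h5 := (mem_filter.1 (mem_filter.1 (mem_coe.1 hg)).1).2
        have h6 := (mem_filter.1 (mem_filter.1 (mem_coe.1 hg')).1).2
        simp only [Prod.mk.injEq] at h4
        exact LL.ext h4.1 h4.2.1 h4.2.2 (h5.trans h6.symm)
    rw [h3]
    refine sum_le_sum_of_subset_of_nonneg ?_ fun p _ _ => (pow_pos hx _).le
    intro p hp
    obtain ⟨g, hg, rfl⟩ := mem_image.1 hp
    have h4 := (mem_filter.1 hg).2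
    have h5 := (mem_filter.1 (mem_filter.1 hg).1).2
    rw [← h5]
    exact h4.1
  have h3 : (F.card : ℝ) * x ^ n ≤ 2 ^ (2 * k + 4) * ((∑' n : ℕ, β ^ n) * (∑' n : ℕ, β ^ n) *
      ∑' m : ℤ, θ ^ m.natAbs) := by
    refine h1.trans ?_
    rw [sum_comm]
    have h4 : ∀ i ∈ range (n + 1), ∑ g ∈ F, ∑ l ∈ range (n + 1),
        (if cond g i l then x ^ cost k g.m i l (g.c, g.h, g.q) else 0) ≤
        ∑ l ∈ range (n + 1), ∑ m ∈ Icc (-(n : ℤ)) n, 2 ^ (2 * k + 4) * (β ^ i * β ^ l * θ ^ m.natAbs) := by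
      intro i _
      rw [sum_comm]
      exact sum_le_sum fun l _ => h2 i l
    refine (sum_le_sum h4).trans ?_
    have h5 : ∑ i ∈ range (n + 1), ∑ l ∈ range (n + 1), ∑ m ∈ Icc (-(n : ℤ)) n,
        2 ^ (2 * k + 4) * (β ^ i * β ^ l * θ ^ m.natAbs) =
        2 ^ (2 * k + 4) * ((∑ i ∈ range (n + 1), β ^ i) * (∑ l ∈ range (n + 1), β ^ l) *
          ∑ m ∈ Icc (-(n : ℤ)) n, θ ^ m.natAbs) := by
      rw [sum_mul_sum, sum_mul, mul_sum]
      refine sum_congr rfl fun i _ => ?_
      rw [sum_mul, mul_sum]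
      refine sum_congr rfl fun l _ => ?_
      rw [mul_sum, mul_sum]
    rw [h5]
    have h6 : ∑ i ∈ range (n + 1), β ^ i ≤ ∑' n : ℕ, β ^ n :=
      hsβ.sum_le_tsum _ fun i _ => pow_nonneg hβ0 i
    have h7 : ∑ m ∈ Icc (-(n : ℤ)) n, θ ^ m.natAbs ≤ ∑' m : ℤ, θ ^ m.natAbs :=
      hsθ.sum_le_tsum _ fun i _ => (pow_pos hθ _).le
    have h8 : 0 ≤ ∑ i ∈ range (n + 1), β ^ i := sum_nonneg fun i _ => pow_nonneg hβ0 i
    have h9 : 0 ≤ ∑ m ∈ Icc (-(n : ℤ)) n, θ ^ m.natAbs := sum_nonneg fun i _ => (pow_pos hθ _).le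
    gcongr
  have h4 : (F.card : ℝ) = (F.card : ℝ) * x ^ n * (1 / x) ^ n := by
    rw [one_div, inv_pow, mul_assoc, mul_inv_cancel₀ (pow_pos hx n).ne', mul_one]
  rw [h4]
  exact mul_le_mul_of_nonneg_right h3 (by positivity)

end Pool.Agent.L7h53.GR
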