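import Pool.Agent.L7h54.GR.Stm

/-!
# Project GR: lower bound for the balls
-/

set_option autoImplicit false

namespace Pool.Agent.L7h53.GR

open Finset
open scoped symmDiff
open Pool.Agent.L7h54.GR

/-! ### Balls -/

theorem ball_one {G : Type} [Group G] (S : Finset G) (n : ℕ) : (1 : G) ∈ ball S n :=
  ⟨[], Nat.zero_le _, by simp, rfl⟩

theorem ball_mul {G : Type} [Group G] {S : Finset G} {n : ℕ} {g s : G} (hg : g ∈ ball S n) (hs : s ∈ S) :
    g * s ∈ ball S (n + 1) := by
  obtain ⟨l, h1, h2, h3⟩ := hg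
  refine ⟨l ++ [s], by simpa using h1, ?_, by simp [h3]⟩
  intro t ht
  rcases List.mem_append.1 ht with h | h
  · exact h2 t h
  · rw [List.mem_singleton.1 h]
    exact Or.inl hs

theorem ball_mono {G : Type} [Group G] {S : Finset G} {m n : ℕ} (h : m ≤ n) : ball S m ⊆ ball S n := by
  rintro g ⟨l, h1, h2, h3⟩
  exact ⟨l, h1.trans h, h2, h3⟩

theorem ball_finite {G : Type} [Group G] (S : Finset G) (n : ℕ) : (ball S n).Finite := by
  have h1 : Finite {g : G // g ∈ S ∨ g⁻¹ ∈ S} := by
    have h2 : ({g : G | g ∈ S ∨ g⁻¹ ∈ S}).Finite := by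
      have h3 : {g : G | g ∈ S ∨ g⁻¹ ∈ S} = (S : Set G) ∪ (fun g => g⁻¹) ⁻¹' (S : Set G) := rfl
      rw [h3]
      refine S.finite_toSet.union (S.finite_toSet.preimage ?_)
      exact inv_injective.injOn
    exact h2.to_subtype
  refine Set.Finite.subset ((List.finite_length_le {g : G // g ∈ S ∨ g⁻¹ ∈ S} n).image
    fun l => (l.map Subtype.val).prod) ?_
  rintro g ⟨l, h2, h3, h4⟩
  refine ⟨l.attach.map fun x => ⟨x.1, h3 x.1 x.2⟩, ?_, ?_⟩
  · simpa using h2
  · simp [h4]

theorem up_mem (k : ℕ) (u w : Bool) : up u w ∈ gen k := by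
  unfold gen
  simp only [mem_union, mem_image, mem_univ, true_and, mem_insert, mem_singleton]
  exact Or.inl (Or.inl ⟨(u, w), rfl⟩)

theorem lo_mem (k : ℕ) (v z : Bool) : lo k v z ∈ gen k := by
  unfold gen
  simp only [mem_union, mem_image, mem_univ, true_and, mem_insert, mem_singleton]
  exact Or.inl (Or.inr ⟨(v, z), rfl⟩)

theorem th_mem (k : ℕ) : th ∈ gen k := by
  unfold gen
  simp

theorem tq_mem (k : ℕ) : tq ∈ gen k := by
  unfold gen
  simp

/-! ### The lamps at distance `j` -/

/-- not served -/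
def un (j : ℤ) (s : Finset ℤ) (y : ℤ) : Prop := y ∉ s ∧ ¬ (0 ≤ y - j ∧ y - j ∉ s)

instance (j : ℤ) (s : Finset ℤ) (y : ℤ) : Decidable (un j s y) := by unfold un; infer_instance

def unsv (j : ℤ) (s : Finset ℤ) (N : ℤ) (T : Finset ℤ) : Finset ℤ := T.filter fun y => y < N ∧ un j s y

theorem mem_unsv {j N y : ℤ} {s T : Finset ℤ} : y ∈ unsv j s N T ↔
    y ∈ T ∧ y < N ∧ y ∉ s ∧ ¬ (0 ≤ y - j ∧ y - j ∉ s) := by
  rw [unsv, mem_filter]
  rfl

def Valid (j : ℤ) (s : Finset ℤ) (N : ℤ) (T : Finset ℤ) : Prop :=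
  ∀ y ∈ T, 0 ≤ y ∧ (N ≤ y → 0 ≤ y - j ∧ y - j < N ∧ y - j ∉ s)

theorem stepA {j N : ℤ} {s T : Finset ℤ} (hj : 1 ≤ j) (hv : Valid j s (N + 1) T) (hN : N ∈ s) :
    Valid j (s.erase N) N (T.erase N) ∧
      (unsv j (s.erase N) N (T.erase N)).card = (unsv j s (N + 1) T).card ∧
      (T.erase N) ∆ (if N ∈ T then {N} else ∅) = T := by
  refine ⟨?_, ?_, ?_⟩
  · intro y hy
    rw [mem_erase] at hy
    obtain ⟨h1, h2⟩ := hv y hy.2
    refine ⟨h1, fun h3 => ?_⟩
    have h4 : N + 1 ≤ y := by
      rcases lt_or_eq_of_le h3 with h | h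
      · omega
      · exact absurd h.symm hy.1
    obtain ⟨h5, h6, h7⟩ := h2 h4
    refine ⟨h5, ?_, fun h8 => h7 (mem_of_mem_erase h8)⟩
    by_contra h8
    have h9 : y - j = N := by omega
    rw [h9] at h7
    exact h7 hN
  · congr 1
    ext y
    rw [mem_unsv, mem_unsv, mem_erase, mem_erase, mem_erase]
    constructor
    · rintro ⟨⟨h1, h2⟩, h3, h4, h5⟩
      refine ⟨h2, by omega, fun h6 => h4 ⟨h1, h6⟩, fun h6 => h5 ⟨h6.1, fun h7 => h6.2 h7.2⟩⟩
    · rintro ⟨h1, h2, h3, h4⟩
      have h5 : y ≠ N := fun h => h3 (h ▸ hN)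
      refine ⟨⟨h5, h1⟩, by omega, fun h6 => h3 h6.2, fun h6 => h4 ⟨h6.1, fun h7 => h6.2 ⟨by omega, h7⟩⟩⟩
  · ext y
    by_cases hT : N ∈ T
    · simp only [hT, if_true, mem_symmDiff, mem_erase, mem_singleton]
      by_cases h : y = N
      · simp [h, hT]
      · simp [h]
    · simp only [hT, if_false, mem_symmDiff, mem_erase]
      by_cases h : y = N
      · simp [h, hT]
      · simp [h]

theorem stepB {j N : ℤ} {s T : Finset ℤ} (hj : 1 ≤ j) (hv : Valid j s (N + 1) T) (hN : N ∉ s) :
    ∃ T0, Valid j s N T0 ∧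
      ((T0 = T.erase (N + j) ∧ (unsv j s N T0).card = (unsv j s (N + 1) T).card) ∨
        (T0 ∆ {N} = T.erase (N + j) ∧ (unsv j s N T0).card + 1 = (unsv j s (N + 1) T).card)) := by
  by_cases hc : N ∈ T ∧ un j s N
  · refine ⟨(T.erase (N + j)).erase N, ?_, Or.inr ⟨?_, ?_⟩⟩
    · intro y hy
      simp only [mem_erase] at hy
      obtain ⟨h1, h2⟩ := hv y hy.2.2
      refine ⟨h1, fun h3 => ?_⟩
      have h4 : N + 1 ≤ y := by
        rcases lt_or_eq_of_le h3 with h | h
        · omega
        · exact absurd h.symm hy.1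
      obtain ⟨h5, h6, h7⟩ := h2 h4
      have h8 := hy.2.1
      exact ⟨h5, by omega, h7⟩
    · ext y
      simp only [mem_symmDiff, mem_erase, mem_singleton]
      by_cases h : y = N
      · subst h
        simp only [ne_eq, not_true_eq_false, false_and, not_false_eq_true, and_self, or_true, true_iff]
        exact ⟨by omega, hc.1⟩
      · simp [h]
    · have h1 : unsv j s (N + 1) T = insert N (unsv j s N ((T.erase (N + j)).erase N)) := by
        ext y
        simp only [unsv, mem_filter, mem_insert, mem_erase]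
        constructor
        · rintro ⟨h1, h2, h3⟩
          by_cases h : y = N
          · exact Or.inl h
          · exact Or.inr ⟨⟨h, by omega, h1⟩, by omega, h3⟩
        · rintro (h | ⟨⟨h1, h2, h3⟩, h4, h5⟩)
          · subst h
            exact ⟨hc.1, by omega, hc.2⟩
          · exact ⟨h3, by omega, h5⟩
      rw [h1, card_insert_of_notMem]
      simp [unsv]
  · refine ⟨T.erase (N + j), ?_, Or.inl ⟨rfl, ?_⟩⟩
    · intro y hy
      simp only [mem_erase] at hy
      obtain ⟨h1, h2⟩ := hv y hy.2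
      refine ⟨h1, fun h3 => ?_⟩
      rcases lt_or_eq_of_le h3 with h | h
      · obtain ⟨h5, h6, h7⟩ := h2 (by omega)
        have h8 := hy.1
        exact ⟨h5, by omega, h7⟩
      · subst h
        have h4 : ¬ un j s N := fun h4 => hc ⟨hy.2, h4⟩
        unfold un at h4
        push Not at h4
        obtain ⟨h5, h6⟩ := h4 hN
        exact ⟨h5, by omega, h6⟩
    · congr 1
      ext y
      simp only [unsv, mem_filter, mem_erase]
      constructor
      · rintro ⟨⟨h1, h2⟩, h3, h4⟩
        exact ⟨h2, by omega, h4⟩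
      · rintro ⟨h1, h2, h3⟩
        have h4 : y ≠ N := by
          rintro rfl
          exact hc ⟨h1, h3⟩
        exact ⟨⟨by omega, h1⟩, by omega, h3⟩

/-- the words which move to the right -/
theorem word {k : ℕ} (hk : 1 ≤ k) : ∀ (N : ℕ) (s H Q : Finset ℤ), s ⊆ Ico 0 (N : ℤ) → Valid k s N H →
    Valid 1 s N Q →
    (⟨s, H, Q, N⟩ : LL) ∈ ball (gen k) (N + (unsv k s N H).card + (unsv 1 s N Q).card) := by
  intro N
  induction N with
  | zero =>
    intro s H Q hs hH hQ
    have h1 : s = ∅ := by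
      simpa using hs
    have h2 : H = ∅ := by
      rw [eq_empty_iff_forall_notMem]
      intro y hy
      obtain ⟨h3, h4⟩ := hH y hy
      obtain ⟨h5, h6, _⟩ := h4 (by simpa using h3)
      push_cast at h6
      omega
    have h3 : Q = ∅ := by
      rw [eq_empty_iff_forall_notMem]
      intro y hy
      obtain ⟨h3, h4⟩ := hQ y hy
      obtain ⟨h5, h6, _⟩ := h4 (by simpa using h3)
      push_cast at h6
      omega
    subst h1 h2 h3
    exact ball_one _ _
  | succ N ih =>
    intro s H Q hs hH hQ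
    have hk' : (1 : ℤ) ≤ k := by exact_mod_cast hk
    push_cast at hs hH hQ ⊢
    by_cases hN : (N : ℤ) ∈ s
    · obtain ⟨a1, a2, a3⟩ := stepA hk' hH hN
      obtain ⟨b1, b2, b3⟩ := stepA le_rfl hQ hN
      have h1 : s.erase (N : ℤ) ⊆ Ico 0 (N : ℤ) := by
        intro y hy
        rw [mem_erase] at hy
        have h2 := hs hy.2
        rw [mem_Ico] at h2 ⊢
        omega
      have h2 := ball_mul (ih _ _ _ h1 a1 b1) (up_mem k (decide ((N : ℤ) ∈ H)) (decide ((N : ℤ) ∈ Q)))
      rw [a2, b2] at h2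
      have h3 : (⟨s.erase (N : ℤ), H.erase (N : ℤ), Q.erase (N : ℤ), N⟩ : LL) *
          up (decide ((N : ℤ) ∈ H)) (decide ((N : ℤ) ∈ Q)) = ⟨s, H, Q, (N : ℤ) + 1⟩ := by
        ext1
        · show s.erase (N : ℤ) ∆ sh N {0} = s
          rw [sh_singleton, add_zero]
          ext y
          simp only [mem_symmDiff, mem_erase, mem_singleton]
          by_cases h : y = N
          · subst h
            simp [hN]
          · simp [h]
        · show H.erase (N : ℤ) ∆ sh N (if decide ((N : ℤ) ∈ H) = true then {0} else ∅) = H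
          conv_rhs => rw [← a3]
          by_cases h : (N : ℤ) ∈ H
          · simp [h]
          · simp [h]
        · show Q.erase (N : ℤ) ∆ sh N (if decide ((N : ℤ) ∈ Q) = true then {0} else ∅) = Q
          conv_rhs => rw [← b3]
          by_cases h : (N : ℤ) ∈ Q
          · simp [h]
          · simp [h]
        · rfl
      rw [h3] at h2
      exact ball_mono (by omega) h2
    · obtain ⟨H0, a1, a2⟩ := stepB hk' hH hN
      obtain ⟨Q0, b1, b2⟩ := stepB le_rfl hQ hN
      have h1 : s ⊆ Ico 0 (N : ℤ) := by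
        intro y hy
        have h2 := hs hy
        rw [mem_Ico] at h2 ⊢
        have h3 : y ≠ N := fun h => hN (h ▸ hy)
        omega
      have h2 := ih _ _ _ h1 a1 b1
      -- the lamp `h`
      have h3 : (⟨s, H.erase ((N : ℤ) + k), Q0, N⟩ : LL) ∈ ball (gen k)
          (N + (unsv k s (N + 1) H).card + (unsv 1 s N Q0).card) := by
        rcases a2 with ⟨a2, a3⟩ | ⟨a2, a3⟩
        · rw [← a2, ← a3]
          exact h2
        · have h4 := ball_mul h2 (th_mem k)
          have h5 : (⟨s, H0, Q0, N⟩ : LL) * th = ⟨s, H.erase ((N : ℤ) + k), Q0, N⟩ := by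
            ext1
            · simp [th]
            · show H0 ∆ sh N {0} = _
              rw [sh_singleton, add_zero, a2]
            · simp [th]
            · simp [th]
          rw [h5] at h4
          exact ball_mono (by omega) h4
      have h6 : (⟨s, H.erase ((N : ℤ) + k), Q.erase ((N : ℤ) + 1), N⟩ : LL) ∈ ball (gen k)
          (N + (unsv k s (N + 1) H).card + (unsv 1 s (N + 1) Q).card) := by
        rcases b2 with ⟨b2, b3⟩ | ⟨b2, b3⟩
        · rw [← b2, ← b3]
          exact h3
        · have h4 := ball_mul h3 (tq_mem k)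
          have h5 : (⟨s, H.erase ((N : ℤ) + k), Q0, N⟩ : LL) * tq =
              ⟨s, H.erase ((N : ℤ) + k), Q.erase ((N : ℤ) + 1), N⟩ := by
            ext1
            · simp [tq]
            · simp [tq]
            · show Q0 ∆ sh N {0} = _
              rw [sh_singleton, add_zero, b2]
            · simp [tq]
          rw [h5] at h4
          exact ball_mono (by omega) h4
      have h7 := ball_mul h6 (lo_mem k (decide ((N : ℤ) + k ∈ H)) (decide ((N : ℤ) + 1 ∈ Q)))
      have h8 : (⟨s, H.erase ((N : ℤ) + k), Q.erase ((N : ℤ) + 1), N⟩ : LL) *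
          lo k (decide ((N : ℤ) + k ∈ H)) (decide ((N : ℤ) + 1 ∈ Q)) = ⟨s, H, Q, (N : ℤ) + 1⟩ := by
        ext1
        · simp [lo]
        · show H.erase ((N : ℤ) + k) ∆ sh N (if decide ((N : ℤ) + k ∈ H) = true then {(k : ℤ)} else ∅) = H
          by_cases h : (N : ℤ) + k ∈ H
          · simp only [h, decide_true, if_true, sh_singleton]
            ext y
            simp only [mem_symmDiff, mem_erase, mem_singleton]
            by_cases h' : y = N + k
            · subst h'
              simp [h]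
            · simp [h']
          · simp [h]
        · show Q.erase ((N : ℤ) + 1) ∆ sh N (if decide ((N : ℤ) + 1 ∈ Q) = true then {(1 : ℤ)} else ∅) = Q
          by_cases h : (N : ℤ) + 1 ∈ Q
          · simp only [h, decide_true, if_true, sh_singleton]
            ext y
            simp only [mem_symmDiff, mem_erase, mem_singleton]
            by_cases h' : y = N + 1
            · subst h'
              simp [h]
            · simp [h']
          · simp [h]
        · rfl
      rw [h8] at h7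
      exact ball_mono (by omega) h7

/-! ### The sum -/

/-- expansion of the bonds -/
theorem bd_sum (x : ℝ) (s : Finset ℤ) (j : ℤ) (I : Finset ℤ) :
    ∏ y ∈ I, bd x s j y = ∑ T ∈ I.powerset, x ^ (T.filter fun y => y - j ∈ s ∧ y ∉ s).card := by
  have h1 : ∀ y, bd x s j y = 1 + (if y - j ∈ s ∧ y ∉ s then x else 1) := by
    intro y
    unfold bd
    split_ifs
    · rfl
    · norm_num
  simp only [h1]
  rw [Finset.prod_one_add]
  refine sum_congr rfl fun T _ => ?_
  rw [prod_ite, prod_const, prod_const_one, mul_one]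

theorem low {k : ℕ} (hk : 1 ≤ k) {x : ℝ} (hx : 0 < x) (N : ℕ) :
    x ^ N * P k N x ≤ ∑ j ∈ range (3 * N + 1), (Nat.card (ball (gen k) j) : ℝ) * x ^ j := by
  classical
  set I : Finset (Finset ℤ × Finset ℤ × Finset ℤ) :=
    (Ico (0 : ℤ) N).powerset ×ˢ ((Ico ((0 : ℤ) + 1) N).powerset ×ˢ (Ico ((0 : ℤ) + k) N).powerset) with hI
  set co : Finset ℤ × Finset ℤ × Finset ℤ → ℕ := fun p =>
    N + (p.2.2.filter fun y : ℤ => y - (k : ℤ) ∈ p.1 ∧ y ∉ p.1).card +
      (p.2.1.filter fun y : ℤ => y - (1 : ℤ) ∈ p.1 ∧ y ∉ p.1).card with hco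
  have h1 : x ^ N * P k N x = ∑ p ∈ I, x ^ co p := by
    rw [P, mul_sum, hI, sum_product]
    refine sum_congr rfl fun s _ => ?_
    rw [wt, bd_sum, bd_sum, sum_mul_sum, mul_sum, sum_product]
    refine sum_congr rfl fun Q _ => ?_
    rw [mul_sum]
    refine sum_congr rfl fun H _ => ?_
    rw [hco, pow_add, pow_add]
    ring
  have hmem : ∀ p ∈ I, (⟨p.1, p.2.2, p.2.1, N⟩ : LL) ∈ ball (gen k) (co p) ∧ co p < 3 * N + 1 := by
    rintro ⟨s, Q, H⟩ hp
    rw [hI, mem_product, mem_product, mem_powerset, mem_powerset, mem_powerset] at hp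
    obtain ⟨hs, hQ, hH⟩ := hp
    dsimp only at hs hQ hH ⊢
    have hVH : Valid k s N H := by
      intro y hy
      have h2 := mem_Ico.1 (hH hy)
      exact ⟨by omega, fun h3 => by omega⟩
    have hVQ : Valid 1 s N Q := by
      intro y hy
      have h2 := mem_Ico.1 (hQ hy)
      exact ⟨by omega, fun h3 => by omega⟩
    have h2 := word hk N s H Q hs hVH hVQ
    have h3 : unsv k s N H = H.filter fun y : ℤ => y - (k : ℤ) ∈ s ∧ y ∉ s := by
      unfold unsv un
      refine filter_congr fun y hy => ?_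
      have h4 := mem_Ico.1 (hH hy)
      constructor
      · rintro ⟨_, h5, h6⟩
        refine ⟨?_, h5⟩
        by_contra h7
        exact h6 ⟨by omega, h7⟩
      · rintro ⟨h5, h6⟩
        exact ⟨h4.2, h6, fun h7 => h7.2 h5⟩
    have h4 : unsv 1 s N Q = Q.filter fun y : ℤ => y - (1 : ℤ) ∈ s ∧ y ∉ s := by
      unfold unsv un
      refine filter_congr fun y hy => ?_
      have h4 := mem_Ico.1 (hQ hy)
      constructor
      · rintro ⟨_, h5, h6⟩
        refine ⟨?_, h5⟩
        by_contra h7
        exact h6 ⟨by omega, h7⟩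
      · rintro ⟨h5, h6⟩
        exact ⟨h4.2, h6, fun h7 => h7.2 h5⟩
    rw [h3, h4] at h2
    refine ⟨h2, ?_⟩
    have h5 : (H.filter fun y : ℤ => y - (k : ℤ) ∈ s ∧ y ∉ s).card ≤ N := by
      refine (card_le_card ((filter_subset _ _).trans hH)).trans ?_
      rw [Int.card_Ico]
      omega
    have h6 : (Q.filter fun y : ℤ => y - (1 : ℤ) ∈ s ∧ y ∉ s).card ≤ N := by
      refine (card_le_card ((filter_subset _ _).trans hQ)).trans ?_
      rw [Int.card_Ico]
      omega
    show N + (H.filter fun y : ℤ => y - (k : ℤ) ∈ s ∧ y ∉ s).card + (Q.filter fun y : ℤ => y - (1 : ℤ) ∈ s ∧ y ∉ s).card < 3 * N + 1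
    omega
  rw [h1, ← sum_fiberwise_of_maps_to (s := I) (t := range (3 * N + 1)) (g := co)
    (fun p hp => mem_range.2 (hmem p hp).2)]
  refine sum_le_sum fun j _ => ?_
  have h2 : ∑ p ∈ I.filter (fun p => co p = j), x ^ co p = ((I.filter fun p => co p = j).card : ℝ) * x ^ j := by
    rw [← nsmul_eq_mul, ← sum_const]
    refine sum_congr rfl fun p hp => ?_
    rw [(mem_filter.1 hp).2]
  rw [h2]
  refine mul_le_mul_of_nonneg_right ?_ (pow_pos hx _).le
  have hfin := ball_finite (gen k) j
  have h3 : (I.filter fun p => co p = j).card ≤ Nat.card (ball (gen k) j) := by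
    haveI := hfin.fintype
    rw [Nat.card_eq_fintype_card, ← Set.toFinset_card]
    refine card_le_card_of_injOn (fun p => (⟨p.1, p.2.2, p.2.1, N⟩ : LL)) ?_ ?_
    · intro p hp
      have h4 := mem_filter.1 (mem_coe.1 hp)
      have h5 := (hmem p h4.1).1
      rw [h4.2] at h5
      simpa using h5
    · rintro ⟨s, Q, H⟩ _ ⟨s', Q', H'⟩ _ h4
      have h5 := congrArg LL.c h4
      have h6 := congrArg LL.h h4
      have h7 := congrArg LL.q h4
      dsimp only at h5 h6 h7
      rw [h5, h6, h7]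
  exact_mod_cast h3

theorem s_LOW : S_LOW := fun _ _ hk hx _ N => low hk hx N

end Pool.Agent.L7h53.GR
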